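import Pool.Agent.Helper55.FR.GoalsB

/-!
# Petersen's theorem from Tutte's theorem
-/

namespace Pool.Agent.Helper79.FR

open Finset Pool.Agent.Helper55.FR

variable {V : Type}

lemma even_int (G : SimpleGraph V) [DecidableRel G.Adj] (C : Finset V) :
    Even ((C ×ˢ C).filter fun p => G.Adj p.1 p.2).card := by
  have h : ∑ _p ∈ (C ×ˢ C).filter (fun p => G.Adj p.1 p.2), (1 : ZMod 2) = 0 := by
    refine Finset.sum_involution (fun p _ => (p.2, p.1)) ?_ ?_ ?_ ?_
    · intro a _
      decide
    · intro a ha _ he
      have h1 : a.2 = a.1 := congrArg Prod.fst he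
      have h2 := (Finset.mem_filter.1 ha).2
      rw [h1] at h2
      exact h2.ne rfl
    · intro a ha
      simp only [Finset.mem_filter, Finset.mem_product] at ha ⊢
      exact ⟨⟨ha.1.2, ha.1.1⟩, ha.2.symm⟩
    · intro a _
      rfl
  rw [Finset.sum_const, nsmul_eq_mul, mul_one] at h
  exact (ZMod.natCast_eq_zero_iff_even).1 h

variable [Fintype V] [DecidableEq V]

lemma card_out (G : SimpleGraph V) [DecidableRel G.Adj] (h3 : G.IsRegularOfDegree 3)
    (C : Finset V) : ((univ : Finset (V × V)).filter fun p => p.1 ∈ C ∧ G.Adj p.1 p.2).card =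
      3 * C.card := by
  have h : ((univ : Finset (V × V)).filter fun p => p.1 ∈ C ∧ G.Adj p.1 p.2) =
      (C.sigma (fun x => G.neighborFinset x)).map (Equiv.sigmaEquivProd V V).toEmbedding := by
    ext p
    obtain ⟨x, y⟩ := p
    simp
  rw [h, Finset.card_map, Finset.card_sigma]
  simp only [SimpleGraph.card_neighborFinset_eq_degree]
  rw [Finset.sum_congr rfl (fun x _ => h3 x), Finset.sum_const, smul_eq_mul, mul_comm]

lemma split (G : SimpleGraph V) [DecidableRel G.Adj] (h3 : G.IsRegularOfDegree 3)
    (C : Finset V) : ((C ×ˢ C).filter fun p => G.Adj p.1 p.2).card +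
      ((C ×ˢ Cᶜ).filter fun p => G.Adj p.1 p.2).card = 3 * C.card := by
  rw [← card_out G h3 C, ← Finset.card_union_of_disjoint]
  · congr 1
    ext p
    simp only [Finset.mem_union, Finset.mem_filter, Finset.mem_product, Finset.mem_compl,
      Finset.mem_univ, true_and]
    tauto
  · rw [Finset.disjoint_left]
    intro p hp hq
    simp only [Finset.mem_filter, Finset.mem_product, Finset.mem_compl] at hp hq
    exact hq.1.2 hp.1.2

theorem pet : PetStmt := by
  classical
  intro V _ _ G _ h3 hC
  rw [SimpleGraph.tutte]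
  intro u hu
  rw [SimpleGraph.IsTutteViolator] at hu
  set H := ((⊤ : G.Subgraph).deleteVerts u).coe with hH
  -- the vertex sets of the odd components
  let K : H.ConnectedComponent → Finset V := fun c => (Subtype.val '' c.supp).toFinset
  have hKmem : ∀ c x, x ∈ K c ↔ ∃ (hx : x ∈ ((⊤ : G.Subgraph).deleteVerts u).verts),
      (⟨x, hx⟩ : ((⊤ : G.Subgraph).deleteVerts u).verts) ∈ c.supp := by
    intro c x
    simp only [K, Set.mem_toFinset, Set.mem_image, Subtype.exists, exists_and_right,
      exists_eq_right]
  have hKodd : ∀ c ∈ H.oddComponents, Odd (K c).card := by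
    intro c hc
    have h1 : (K c).card = c.supp.ncard := by
      rw [← Set.ncard_eq_toFinset_card', Set.ncard_image_of_injective _ Subtype.val_injective]
    rw [h1]
    exact hc
  -- neighbours outside a component lie in `u`
  have hout : ∀ c x y, x ∈ K c → G.Adj x y → y ∉ K c → y ∈ u := by
    intro c x y hx hxy hy
    by_contra hyu
    obtain ⟨hx1, hx2⟩ := (hKmem c x).1 hx
    have hy1 : y ∈ ((⊤ : G.Subgraph).deleteVerts u).verts := by
      simp [hyu]
    apply hy
    rw [hKmem]
    refine ⟨hy1, ?_⟩
    rw [SimpleGraph.ConnectedComponent.mem_supp_iff] at hx2 ⊢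
    rw [← hx2]
    apply SimpleGraph.ConnectedComponent.sound
    apply SimpleGraph.Adj.reachable
    have hxu : x ∉ u := by simpa using hx1
    simp [H, hxu, hyu, hxy.symm]
  have hdis : ∀ c c' x, x ∈ K c → x ∈ K c' → c = c' := by
    intro c c' x hx hx'
    obtain ⟨h1, h2⟩ := (hKmem c x).1 hx
    obtain ⟨h1', h2'⟩ := (hKmem c' x).1 hx'
    rw [SimpleGraph.ConnectedComponent.mem_supp_iff] at h2 h2'
    rw [← h2, ← h2']
  have h3le : ∀ c ∈ H.oddComponents, 3 ≤ ((K c ×ˢ (K c)ᶜ).filter fun p => G.Adj p.1 p.2).card := by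
    intro c hc
    have h1 := hKodd c hc
    have h2 := hC (K c) h1
    have h4 := split G h3 (K c)
    have h5 := even_int G (K c)
    obtain ⟨a, ha⟩ := h5
    obtain ⟨b, hb⟩ := h1
    omega
  have hfin : (H.oddComponents).ncard = (H.oddComponents).toFinset.card :=
    Set.ncard_eq_toFinset_card' _
  have hcount : 3 * (H.oddComponents).toFinset.card ≤ 3 * u.toFinset.card := by
    calc 3 * (H.oddComponents).toFinset.card
        = ∑ _c ∈ (H.oddComponents).toFinset, 3 := by
          rw [Finset.sum_const, smul_eq_mul, mul_comm]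
      _ ≤ ∑ c ∈ (H.oddComponents).toFinset,
            ((K c ×ˢ (K c)ᶜ).filter fun p => G.Adj p.1 p.2).card := by
          apply Finset.sum_le_sum
          intro c hc
          exact h3le c (Set.mem_toFinset.1 hc)
      _ = ((H.oddComponents).toFinset.biUnion fun c =>
            (K c ×ˢ (K c)ᶜ).filter fun p => G.Adj p.1 p.2).card := by
          rw [Finset.card_biUnion]
          intro c _ c' _ hcc
          rw [Function.onFun, Finset.disjoint_left]
          intro p hp hq
          simp only [Finset.mem_filter, Finset.mem_product] at hp hq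
          exact hcc (hdis c c' p.1 hp.1.1 hq.1.1)
      _ ≤ (((univ : Finset (V × V)).filter fun p => p.1 ∈ u.toFinset ∧ G.Adj p.1 p.2).map
            (Equiv.prodComm V V).toEmbedding).card := by
          apply Finset.card_le_card
          intro p hp
          rw [Finset.mem_biUnion] at hp
          obtain ⟨c, _, hp⟩ := hp
          simp only [Finset.mem_filter, Finset.mem_product, Finset.mem_compl] at hp
          rw [Finset.mem_map]
          refine ⟨(p.2, p.1), ?_, by simp⟩
          simp only [Finset.mem_filter, Finset.mem_univ, true_and, Set.mem_toFinset]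
          exact ⟨hout c p.1 p.2 hp.1.1 hp.2 hp.1.2, hp.2.symm⟩
      _ = 3 * u.toFinset.card := by
          rw [Finset.card_map, card_out G h3]
  have hu2 : u.ncard = u.toFinset.card := Set.ncard_eq_toFinset_card' u
  have hu3 : u.ncard < (H.oddComponents).ncard := hu
  omega

end Pool.Agent.Helper79.FR
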